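import Pool.Agent.T6.H17.PB.FIN

/-!
# `MP_745d3a_ag`: bundles with all diagonal symmetries of order `M` are pull-backs

Let `n ≥ 3`, `M ≥ 1`, and let `ζ` be a primitive `M`-th root of unity.  We prove that a rank two
bundle `E` on `P^n` which does not split and which has the symmetries which multiply the coordinate
`x_i` by `ζ`, for `i = 0, …, n`, is, up to a twist, the pull-back `f^* E'` of a rank two bundle `E'`
which does not split, under the finite self-map `f = (x_0^M : … : x_n^M)` of `P^n`.

No linearisation is assumed: the lifts of the symmetries to `E` are only required to compose up to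
constants, and nothing at all is required of their composition when `E` is simple.

A bundle is given as in the starting files of this problem: it is the kernel of a matrix `B` of
homogeneous polynomials, of constant corank two (`H960VB.Bundle2`).
-/

set_option autoImplicit false

namespace Pool.Agent.Results.MP_745d3a_ag.PowerMaps

open MvPolynomial H960VB Pool.Agent.Results.MP_745d3a_ag.AbelianSymmetry

/-- The pull-back `f^* E` under the self-map `f = (x_0^M : … : x_n^M)` of `P^n`: if `E` is the
kernel of `B : ⊕ O(β i) → ⊕ O(γ k)` then `f^* E` is the kernel of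
`B(x_0^M, …, x_n^M) : ⊕ O(M β i) → ⊕ O(M γ k)`. -/
noncomputable def powerPullback {n : ℕ} (M : ℕ) (hM : 0 < M) (E : Bundle2 n) : Bundle2 n where
  a := E.a
  c := E.c
  β := fun i => M * E.β i
  γ := fun k => M * E.γ k
  B := E.B.map (expand M)
  hom := (Pool.Agent.T6.H17.PB.powPull M hM E).hom
  rank_two := (Pool.Agent.T6.H17.PB.powPull M hM E).rank_two

/-- The fibre of `f^* E` at `x` is the fibre of `E` at `f(x)`. -/
theorem fib_powerPullback {n : ℕ} (M : ℕ) (hM : 0 < M) (E : Bundle2 n) (x : Fin (n + 1) → ℂ) :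
    (powerPullback M hM E).fib x = E.fib (fun i => x i ^ M) :=
  Pool.Agent.T6.H17.PB.fib_powPull M hM E x

/-- `E ≅ F(k)`, in terms of sections: a bijection from the sections of `E(d)` to those of
`F(d + k)`, for all `d`, which is additive and linear over the polynomials. -/
def IsoTwist {n : ℕ} (E F : Bundle2 n) (k : ℤ) : Prop :=
  ∃ φ : Vec E → Vec F,
    (∀ d G, E.IsSection d G → F.IsSection (d + k) (φ G)) ∧
    (∀ d G G', E.IsSection d G → E.IsSection d G' → φ (G + G') = φ G + φ G') ∧
    (∀ d e (p : MvPolynomial (Fin (n + 1)) ℂ) G, E.IsSection d G → HomZ p e →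
      φ (p • G) = p • φ G) ∧
    (∀ d G, E.IsSection d G → φ G = 0 → G = 0) ∧
    (∀ d H, F.IsSection (d + k) H → ∃ G, E.IsSection d G ∧ φ G = H)

/-- the same operator over an equal linear map -/
def castOp {n : ℕ} {E : Bundle2 n} {T T' : (Fin (n + 1) → ℂ) →ₗ[ℂ] (Fin (n + 1) → ℂ)}
    (h : T = T') (O : Pool.Agent.W467.FO.GOp E T) : Pool.Agent.W467.FO.GOp E T' where
  D := O.D
  sec := O.sec
  add := O.add
  mul := by
    intro d e p G hG hp
    rw [← h]
    exact O.mul d e p G hG hp
  inj := O.inj

/-- Let `n ≥ 3` and let `E` be a rank two bundle on `P^n` which does not split.  Let the commutative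
group `G` act on `P^n` by symmetries of `E`, and suppose that for every coordinate `x_i` some
element of `G` acts by multiplying `x_i` by the primitive `M`-th root of unity `ζ`.  Then
`E ≅ f^* E' (k)` for the finite self-map `f = (x_0^M : … : x_n^M)`, a rank two bundle `E'` on `P^n`
which does not split, and an integer `k`. -/
theorem result {n : ℕ} (hn : 3 ≤ n) (E : Bundle2 n) (hE : ¬ E.Splits)
    {G : Type} [CommGroup G]
    (ρ : G →* Matrix (Fin (n + 1)) (Fin (n + 1)) ℂ) (Φ : G → Vec E → Vec E)
    (hΦ : IsSymmetry E ρ Φ) (M : ℕ) (hM : 0 < M) (ζ : ℂ) (hζ : IsPrimitiveRoot ζ M)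
    (hG : ∀ i, ∃ g, ρ g = scale ζ {i}) :
    ∃ (E' : Bundle2 n) (k : ℤ), ¬ E'.Splits ∧ IsoTwist E (powerPullback M hM E') k := by
  have hmul : ∀ a b, ∃ c : ℂ, c ≠ 0 ∧
      ∀ d s, E.IsSection d s → Φ (a * b) s = c • Φ a (Φ b s) := by
    rcases hΦ.mul with h | h
    · exact simple_action h ρ Φ hΦ.lift
    · exact h
  choose g hg using hG
  have hT : ∀ i, (ρ (g i)).mulVecLin = Pool.Agent.T6.H17.PB.hT n ζ i := by
    intro i
    rw [hg i]
    exact Pool.Agent.T6.H17.PB.scale_eq ζ i
  refine Pool.Agent.T6.H17.PB.main hn hE hM hζ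
    (fun i => castOp (hT i) (gop (hΦ.lift (g i)))) ?_
  intro i j
  obtain ⟨c, hc0, hc⟩ := hmul (g i) (g j)
  obtain ⟨c', hc0', hc'⟩ := hmul (g j) (g i)
  refine ⟨c⁻¹ * c', fun d s hs => ?_⟩
  have hs' := Pool.Agent.W615.sec_iff.1 hs
  have h1 := hc d s hs'
  have h2 := hc' d s hs'
  rw [mul_comm (g j) (g i), h1] at h2
  show Φ (g i) (Φ (g j) s) = (c⁻¹ * c') • Φ (g j) (Φ (g i) s)
  rw [mul_smul, ← h2, smul_smul, inv_mul_cancel₀ hc0, one_smul]

end Pool.Agent.Results.MP_745d3a_ag.PowerMaps
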